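import Pool.Agent.MP_098ecc_co.H97.Core
import Pool.Agent.MP_098ecc_co.H66.Bridge

set_option autoImplicit false

namespace Pool.Agent.Results.MP_098ecc_co.RotationSystems

open Pool.Agent.MP_098ecc_co.H66

theorem result (D₁ D₂ : Set ℕ) (h₁ : 0 ∉ D₁) (h₂ : 0 ∉ D₂) :
    IsAlgebraic (Polynomial ℚ) (PowerSeries.mk fun n => (count D₁ D₂ n : ℚ)) ↔
      (D₁ = ∅ ∨ D₂ = ∅ ∨ (EvPer D₁ ∧ EvPer D₂)) := by
  have e : ∀ D : Set ℕ, 0 ∉ D → (D ⊆ {0} ↔ D = ∅) := fun D h =>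
    ⟨fun hD => Set.eq_empty_of_forall_notMem fun n hn => h (Set.mem_singleton_iff.1 (hD hn) ▸ hn),
      fun hD => hD ▸ Set.empty_subset _⟩
  simp only [count_eq]
  rw [Pool.Agent.MP_098ecc_co.H97.final_of_core Pool.Agent.MP_098ecc_co.H97.core, e D₁ h₁, e D₂ h₂]
  rfl

end Pool.Agent.Results.MP_098ecc_co.RotationSystems
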